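import Mathlib

/-! Counting the `n` with `p ^ 3 ∣ n ^ 2 + g n` for a monotone `g` with steps `0` or `1`. -/

namespace Pool.Agent.MP_c6d393_nt

open Finset

lemma lip {g : ℕ → ℕ} (h1 : ∀ n, g (n + 1) ≤ g n + 1) (a d : ℕ) : g (a + d) ≤ g a + d := by
  induction d with
  | zero => simp
  | succ d ih => have := h1 (a + d); rw [← add_assoc]; omega

lemma sq_dvd {p a u : ℕ} (hp : p.Prime) (ha : 0 < a) (ha2 : a < p ^ 2) (h : p ^ 3 ∣ a * u) :
    p ^ 2 ∣ u := by
  by_cases hpa : p ∣ a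
  · obtain ⟨b, rfl⟩ := hpa
    have hb : 0 < b := Nat.pos_of_mul_pos_left ha
    have hbp : b < p := by
      rw [pow_two] at ha2
      exact Nat.lt_of_mul_lt_mul_left ha2
    have hc : Nat.Coprime (p ^ 2) b :=
      Nat.Coprime.pow_left 2 ((Nat.Prime.coprime_iff_not_dvd hp).2 (Nat.not_dvd_of_pos_of_lt hb hbp))
    have h2 : p * p ^ 2 ∣ p * (b * u) := by
      have e1 : p * p ^ 2 = p ^ 3 := by ring
      have e2 : p * (b * u) = p * b * u := by ring
      rw [e1, e2]; exact h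
    exact hc.dvd_of_dvd_mul_left (Nat.dvd_of_mul_dvd_mul_left hp.pos h2)
  · have hc : Nat.Coprime (p ^ 3) a :=
      Nat.Coprime.pow_left 3 ((Nat.Prime.coprime_iff_not_dvd hp).2 hpa)
    exact (pow_dvd_pow p (by norm_num)).trans (hc.dvd_of_dvd_mul_left h)

lemma card_le_two (s : Finset ℕ)
    (h : ∀ a ∈ s, ∀ b ∈ s, ∀ c ∈ s, a < b → b < c → False) : #s ≤ 2 := by
  by_contra hc
  push Not at hc
  obtain ⟨a, b, c, ha, hb, hc, hab, hac, hbc⟩ := Finset.two_lt_card_iff.1 hc
  rcases lt_or_gt_of_ne hab with h1 | h1 <;> rcases lt_or_gt_of_ne hac with h2 | h2 <;>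
    rcases lt_or_gt_of_ne hbc with h3 | h3
  · exact h a ha b hb c hc h1 h3
  · exact h a ha c hc b hb h2 h3
  · omega
  · exact h c hc a ha b hb h2 h1
  · exact h b hb a ha c hc h1 h2
  · omega
  · exact h b hb c hc a ha h3 h2
  · exact h c hc b hb a ha h3 h1

lemma close_of_div {a b m : ℕ} (hm : 0 < m) (h : a / m = b / m) : b < a + m := by
  have h1 := Nat.div_add_mod a m
  have h2 := Nat.div_add_mod b m
  have h3 := Nat.mod_lt b hm
  rw [h] at h1
  omega

/-- A set of pairwise congruent numbers below `X`. -/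
lemma card_cong (S : Finset ℕ) {X m : ℕ} (hm : 0 < m) (hS : ∀ n ∈ S, n < X)
    (h : ∀ a ∈ S, ∀ b ∈ S, a < b → m ∣ b - a) : #S ≤ X / m + 1 := by
  rw [← Finset.card_range (X / m + 1)]
  refine Finset.card_le_card_of_injOn (fun n => n / m) ?_ ?_
  · intro n hn
    have : n / m ≤ X / m := Nat.div_le_div_right (hS n hn).le
    simp only [coe_range, Set.mem_Iio]; omega
  · intro a ha b hb hab
    simp only at hab
    by_contra hne
    rcases lt_or_gt_of_ne hne with h1 | h1
    · have := Nat.le_of_dvd (by omega) (h a ha b hb h1)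
      have := close_of_div hm hab
      omega
    · have := Nat.le_of_dvd (by omega) (h b hb a ha h1)
      have := close_of_div hm hab.symm
      omega

lemma three_const {p W k a b c : ℕ} (hp : p.Prime) (hW : ¬ p ∣ W) (hab : a < b) (hbc : b < c)
    (h1 : W ∣ b - a) (h2 : W ∣ c - a) (hc : c < a + W * p ^ 2)
    (da : p ^ 3 ∣ a ^ 2 + k) (db : p ^ 3 ∣ b ^ 2 + k) (dc : p ^ 3 ∣ c ^ 2 + k) : False := by
  obtain ⟨u, hu⟩ := h1
  obtain ⟨v, hv⟩ := h2
  have hb : b = a + W * u := by omega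
  have hc' : c = a + W * v := by omega
  have hco : Nat.Coprime (p ^ 3) W :=
    Nat.Coprime.pow_left 3 ((Nat.Prime.coprime_iff_not_dvd hp).2 hW)
  have hco2 : Nat.Coprime (p ^ 2) W :=
    Nat.Coprime.pow_left 2 ((Nat.Prime.coprime_iff_not_dvd hp).2 hW)
  have huv : u < v := Nat.lt_of_mul_lt_mul_left (a := W) (by omega)
  have hv2 : v < p ^ 2 := Nat.lt_of_mul_lt_mul_left (a := W) (by omega)
  have hu0 : 0 < u := Nat.pos_of_mul_pos_left (b := u) (a := W) (by omega)
  have key : ∀ x, 0 < x → x < p ^ 2 → p ^ 3 ∣ (a + W * x) ^ 2 + k → p ^ 2 ∣ 2 * a + W * x := by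
    intro x hx hx2 hd
    have e : (a + W * x) ^ 2 + k = (a ^ 2 + k) + W * (x * (2 * a + W * x)) := by ring
    rw [e] at hd
    exact sq_dvd hp hx hx2 (hco.dvd_of_dvd_mul_left ((Nat.dvd_add_right da).1 hd))
  have k1 := key u hu0 (by omega) (hb ▸ db)
  have k2 := key v (by omega) hv2 (hc' ▸ dc)
  obtain ⟨y, rfl⟩ := Nat.exists_eq_add_of_lt huv
  have e : 2 * a + W * (u + y + 1) = (2 * a + W * u) + W * (y + 1) := by ring
  rw [e] at k2
  have := Nat.le_of_dvd (by omega) (hco2.dvd_of_dvd_mul_left ((Nat.dvd_add_right k1).1 k2))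
  omega

/-- Small primes, inside a residue class that depends on the value of `g`. -/
lemma count_small {g : ℕ → ℕ} (hm : Monotone g) (r : ℕ → ℕ) {p W : ℕ} (X : ℕ) (hp : p.Prime)
    (hW : ¬ p ∣ W) (hW0 : 0 < W) :
    #{n ∈ range X | n % W = r (g n) ∧ p ^ 3 ∣ n ^ 2 + g n} ≤
      2 * (X / (W * p ^ 2) + g X + 1) := by
  have hD : 0 < W * p ^ 2 := Nat.mul_pos hW0 (pow_pos hp.pos 2)
  rw [← Finset.card_range (X / (W * p ^ 2) + g X + 1)]
  refine Finset.card_le_mul_card_image_of_maps_to (f := fun n => n / (W * p ^ 2) + g n) ?_ 2 ?_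
  · intro n hn
    simp only [mem_filter, mem_range] at hn ⊢
    have h1 : n / (W * p ^ 2) ≤ X / (W * p ^ 2) := Nat.div_le_div_right hn.1.le
    have h2 := hm hn.1.le
    omega
  · intro y _
    refine card_le_two _ ?_
    intro a ha b hb c hc hab hbc
    simp only [mem_filter, mem_range] at ha hb hc
    have d1 : a / (W * p ^ 2) ≤ b / (W * p ^ 2) := Nat.div_le_div_right hab.le
    have d2 : b / (W * p ^ 2) ≤ c / (W * p ^ 2) := Nat.div_le_div_right hbc.le
    have g1 := hm hab.le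
    have g2 := hm hbc.le
    have e1 : g b = g a := by omega
    have e2 : g c = g a := by omega
    have e3 : a / (W * p ^ 2) = c / (W * p ^ 2) := by omega
    refine three_const (k := g a) hp hW hab hbc ?_ ?_ (close_of_div hD e3) ha.1.2.2
      (e1 ▸ hb.1.2.2) (e2 ▸ hc.1.2.2)
    · exact (Nat.modEq_iff_dvd' hab.le).1 (by unfold Nat.ModEq; rw [ha.1.2.1, hb.1.2.1, e1])
    · exact (Nat.modEq_iff_dvd' (hab.trans hbc).le).1
        (by unfold Nat.ModEq; rw [ha.1.2.1, hc.1.2.1, e2])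

lemma t_unique {q e d t1 t2 j1 j2 i1 i2 : ℕ} (hd : 0 < d) (hj2 : j2 ≤ d) (hi1 : i1 ≤ t1)
    (h1 : q * e + t1 * j1 = d * t1 * (d + t1) + d * i1)
    (h2 : q * e + t2 * j2 = d * t2 * (d + t2) + d * i2) : ¬ t1 < t2 := by
  intro hlt
  obtain ⟨u, rfl⟩ := Nat.exists_eq_add_of_lt hlt
  have a1 : d * i1 ≤ d * t1 := Nat.mul_le_mul_left _ hi1
  have a2 : (t1 + u + 1) * j2 ≤ (t1 + u + 1) * d := Nat.mul_le_mul_left _ hj2
  have a3 : 0 < d * d := Nat.mul_pos hd hd
  have e1 : d * (t1 + u + 1) * (d + (t1 + u + 1)) =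
      d * t1 * (d + t1) + d * t1 + (t1 + u + 1) * d + d * d +
        (d * d * u + 2 * d * t1 * u + d * u * u + d * u) := by ring
  omega

open Classical in
/-- For fixed `d` and `e` few values of `j` are possible. -/
lemma card_j {p d e : ℕ} (hp : p.Prime) (hd : 0 < d) (hpd : ¬ p ∣ d) (he : 0 < e) :
    #{j ∈ range (d + 1) | ∃ t i, i ≤ t ∧
      p ^ 3 * e + t * j = d * t * (d + t) + d * i} ≤ e + 1 := by
  rw [← Finset.card_range (e + 1)]
  have key : ∀ j1 j2, j1 ≤ d → j2 ≤ d → j1 < j2 →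
      (∃ t i, i ≤ t ∧ p ^ 3 * e + t * j1 = d * t * (d + t) + d * i) →
      (∃ t i, i ≤ t ∧ p ^ 3 * e + t * j2 = d * t * (d + t) + d * i) →
      j1 * e / d = j2 * e / d → False := by
    rintro j1 j2 hj1 hj2 hlt ⟨t1, i1, hi1, h1⟩ ⟨t2, i2, hi2, h2⟩ hq
    have ht : t1 = t2 := by
      have := t_unique hd hj2 hi1 h1 h2
      have := t_unique hd hj1 hi2 h2 h1
      omega
    subst ht
    obtain ⟨u, rfl⟩ := Nat.exists_eq_add_of_lt hlt
    have d1 : d ∣ p ^ 3 * e + t1 * j1 := ⟨t1 * (d + t1) + i1, by rw [h1]; ring⟩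
    have d2 : d ∣ p ^ 3 * e + t1 * j1 + t1 * (u + 1) :=
      ⟨t1 * (d + t1) + i2, by
        have : p ^ 3 * e + t1 * j1 + t1 * (u + 1) = p ^ 3 * e + t1 * (j1 + u + 1) := by ring
        rw [this, h2]; ring⟩
    have d3 : d ∣ t1 * (u + 1) := (Nat.dvd_add_right d1).1 d2
    have d4 : d ∣ Nat.gcd d t1 * (u + 1) := by
      rw [← Nat.gcd_mul_right]
      exact Nat.dvd_gcd (Dvd.intro _ rfl) d3
    have g1 : Nat.gcd d t1 ∣ p ^ 3 * e :=
      (Nat.dvd_add_left (Dvd.dvd.mul_right (Nat.gcd_dvd_right d t1) j1)).1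
        ((Nat.gcd_dvd_left d t1).trans d1)
    have g2 : Nat.Coprime (Nat.gcd d t1) (p ^ 3) :=
      Nat.Coprime.pow_right 3 (Nat.Coprime.symm ((Nat.Prime.coprime_iff_not_dvd hp).2
        (fun h => hpd (h.trans (Nat.gcd_dvd_left d t1)))))
    have g3 : Nat.gcd d t1 ≤ e := Nat.le_of_dvd he (g2.dvd_of_dvd_mul_left g1)
    have g4 : d ≤ Nat.gcd d t1 * (u + 1) :=
      Nat.le_of_dvd (Nat.mul_pos (Nat.gcd_pos_of_pos_left _ hd) (by omega)) d4
    have g5 : Nat.gcd d t1 * (u + 1) ≤ e * (u + 1) := Nat.mul_le_mul_right _ g3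
    have g6 := close_of_div hd hq
    have e1 : (j1 + u + 1) * e = j1 * e + e * (u + 1) := by ring
    omega
  refine Finset.card_le_card_of_injOn (fun j => j * e / d) ?_ ?_
  · intro j hj
    simp only [coe_filter, mem_range, Set.mem_ofPred_eq] at hj
    have : j * e / d ≤ e := by
      apply Nat.div_le_of_le_mul
      exact Nat.mul_le_mul_right _ (by omega)
    simp only [coe_range, Set.mem_Iio]; omega
  · intro a ha b hb hab
    simp only [coe_filter, mem_range, Set.mem_ofPred_eq] at ha hb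
    by_contra hne
    rcases lt_or_gt_of_ne hne with h1 | h1
    · exact key a b (by omega) (by omega) h1 ha.2 hb.2 hab
    · exact key b a (by omega) (by omega) h1 hb.2 ha.2 hab.symm

lemma lin_dvd {q d j a b : ℕ} (hab : a < b) (ha : q ∣ 2 * a * d + d ^ 2 + j)
    (hb : q ∣ 2 * b * d + d ^ 2 + j) : q ∣ d * (2 * (b - a)) := by
  obtain ⟨u, rfl⟩ := Nat.exists_eq_add_of_lt hab
  have e : 2 * (a + u + 1) * d + d ^ 2 + j =
      (2 * a * d + d ^ 2 + j) + d * (2 * (a + u + 1 - a)) := by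
    have : a + u + 1 - a = u + 1 := by omega
    rw [this]; ring
  rw [e] at hb
  exact (Nat.dvd_add_right ha).1 hb

/-- The determinant of three solutions. -/
lemma exists_e {q n d t j i D : ℕ} (hd : 0 < d) (ht : 0 < t) (hj : j ≤ d) (hi : i ≤ t)
    (hD : d + t < D) (hA : q ∣ 2 * n * d + d ^ 2 + j)
    (hB : q ∣ 2 * n * (d + t) + (d + t) ^ 2 + (j + i)) :
    ∃ e, 0 < e ∧ q * e ≤ D ^ 3 ∧ q * e + t * j = d * t * (d + t) + d * i := by
  have a1 : t * j ≤ t * d := Nat.mul_le_mul_left _ hj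
  have a2 : d * t * 2 ≤ d * t * (d + t) := Nat.mul_le_mul_left _ (by omega)
  have a3 : 0 < d * t := Nat.mul_pos hd ht
  have a4 : t * d = d * t := mul_comm _ _
  obtain ⟨Δ, hΔ⟩ : ∃ Δ, Δ + t * j = d * t * (d + t) + d * i :=
    ⟨d * t * (d + t) + d * i - t * j, by omega⟩
  have hq : q ∣ Δ := by
    have e : d * (2 * n * (d + t) + (d + t) ^ 2 + (j + i)) + t * j =
        (d + t) * (2 * n * d + d ^ 2 + j) + (d * t * (d + t) + d * i) := by ring
    have e2 : d * (2 * n * (d + t) + (d + t) ^ 2 + (j + i)) =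
        (d + t) * (2 * n * d + d ^ 2 + j) + Δ := by omega
    have h1 : q ∣ (d + t) * (2 * n * d + d ^ 2 + j) + Δ := e2 ▸ Dvd.dvd.mul_left hB d
    exact (Nat.dvd_add_right (Dvd.dvd.mul_left hA _)).1 h1
  obtain ⟨e, rfl⟩ := hq
  refine ⟨e, Nat.pos_of_mul_pos_left (a := q) (by omega), ?_, hΔ⟩
  have b1 : d * i ≤ d * t := Nat.mul_le_mul_left _ hi
  have b2 : d * t * (d + t + 1) ≤ D * D * D :=
    Nat.mul_le_mul (Nat.mul_le_mul (by omega) (by omega)) (by omega)
  have b3 : d * t * (d + t + 1) = d * t * (d + t) + d * t := by ring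
  have b4 : D ^ 3 = D * D * D := by ring
  omega

/-- Middle primes: a power saving over the convexity bound. -/
lemma count_mid {g : ℕ → ℕ} (hm : Monotone g) (h1 : ∀ n, g (n + 1) ≤ g n + 1) {p w : ℕ} (X : ℕ)
    (hp : p.Prime) (hp2 : p ≠ 2) (hw : 0 < w) (hwp : w ≤ p) :
    #{n ∈ range X | p ^ 3 ∣ n ^ 2 + g n} ≤
      2 * (X / (p * w) + 1) + w * w * (X / p ^ 2 + 1) +
        p * w * (w ^ 3 * ((w ^ 3 + 1) * (X / p ^ 3 + 1))) := by
  classical
  have hD : 0 < p * w := Nat.mul_pos hp.pos hw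
  have hodd : ∀ k, Nat.Coprime (p ^ k) 2 := fun k =>
    Nat.Coprime.pow_left k ((Nat.coprime_primes hp Nat.prime_two).2 hp2)
  set S := {n ∈ range X | p ^ 3 ∣ n ^ 2 + g n} with hS
  set P : ℕ → Prop := fun n => ∃ d t, 0 < d ∧ 0 < t ∧ d + t < p * w ∧
    p ^ 3 ∣ (n + d) ^ 2 + g (n + d) ∧ p ^ 3 ∣ (n + d + t) ^ 2 + g (n + d + t) with hP
  have c1 : #(S.filter fun n => ¬ P n) ≤ 2 * (X / (p * w) + 1) := by
    rw [← Finset.card_range (X / (p * w) + 1)]
    refine Finset.card_le_mul_card_image_of_maps_to (f := fun n => n / (p * w)) ?_ 2 ?_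
    · intro n hn
      simp only [hS, mem_filter, mem_range] at hn ⊢
      have h1 : n / (p * w) ≤ X / (p * w) := Nat.div_le_div_right hn.1.1.le
      omega
    · intro y _
      refine card_le_two _ ?_
      intro a ha b hb c hc hab hbc
      simp only [hS, mem_filter, mem_range] at ha hb hc
      have := close_of_div hD (ha.2.trans hc.2.symm)
      refine ha.1.2 ⟨b - a, c - b, by omega, by omega, by omega, ?_, ?_⟩
      · have e : a + (b - a) = b := by omega
        rw [e]; exact hb.1.1.2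
      · have e : a + (b - a) + (c - b) = c := by omega
        rw [e]; exact hc.1.1.2
  set L : ℕ → ℕ → Finset ℕ := fun d j => {n ∈ range X | p ^ 3 ∣ 2 * n * d + d ^ 2 + j} with hL
  set J : ℕ → ℕ → Finset ℕ := fun d e => {j ∈ range (d + 1) | ∃ t i, i ≤ t ∧
      p ^ 3 * e + t * j = d * t * (d + t) + d * i} with hJ
  set U2 := (Ico 1 w).biUnion fun a => (range w).biUnion fun b => L (p * a) (p * b) with hU2
  set U1 := ((Ico 1 (p * w)).filter fun d => ¬ p ∣ d).biUnion fun d =>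
    (Icc 1 (w ^ 3)).biUnion fun e => (J d e).biUnion fun j => L d j with hU1
  have c2 : #U2 ≤ w * w * (X / p ^ 2 + 1) := by
    refine (Finset.card_biUnion_le_card_mul _ _ (w * (X / p ^ 2 + 1)) ?_).trans ?_
    · intro a ha
      rw [mem_Ico] at ha
      refine (Finset.card_biUnion_le_card_mul _ _ (X / p ^ 2 + 1) ?_).trans (by simp)
      intro b _
      refine card_cong _ (pow_pos hp.pos 2) (fun n hn => ?_) ?_
      · simp only [hL, mem_filter, mem_range] at hn; exact hn.1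
      · intro x hx y hy hxy
        simp only [hL, mem_filter, mem_range] at hx hy
        have h3 := lin_dvd hxy hx.2 hy.2
        have h4 : p * a < p ^ 2 := by
          rw [pow_two]; exact Nat.mul_lt_mul_of_pos_left (by omega) hp.pos
        exact (hodd 2).dvd_of_dvd_mul_left
          (sq_dvd hp (Nat.mul_pos hp.pos (by omega)) h4 h3)
    · rw [Nat.card_Ico, mul_assoc]
      exact Nat.mul_le_mul_right _ (by omega)
  have c3 : #U1 ≤ p * w * (w ^ 3 * ((w ^ 3 + 1) * (X / p ^ 3 + 1))) := by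
    refine (Finset.card_biUnion_le_card_mul _ _
      (w ^ 3 * ((w ^ 3 + 1) * (X / p ^ 3 + 1))) ?_).trans ?_
    · intro d hd
      simp only [mem_filter, mem_Ico] at hd
      refine (Finset.card_biUnion_le_card_mul _ _ ((w ^ 3 + 1) * (X / p ^ 3 + 1)) ?_).trans
        (by simp)
      intro e he
      rw [mem_Icc] at he
      refine (Finset.card_biUnion_le_card_mul _ _ (X / p ^ 3 + 1) ?_).trans ?_
      · intro j _
        refine card_cong _ (pow_pos hp.pos 3) (fun n hn => ?_) ?_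
        · simp only [hL, mem_filter, mem_range] at hn; exact hn.1
        · intro x hx y hy hxy
          simp only [hL, mem_filter, mem_range] at hx hy
          have h3 := lin_dvd hxy hx.2 hy.2
          have hc : Nat.Coprime (p ^ 3) d :=
            Nat.Coprime.pow_left 3 ((Nat.Prime.coprime_iff_not_dvd hp).2 hd.2)
          exact (hodd 3).dvd_of_dvd_mul_left (hc.dvd_of_dvd_mul_left h3)
      · refine Nat.mul_le_mul_right _ ?_
        exact (card_j (e := e) hp (by omega) hd.2 (by omega)).trans (by omega)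
    · refine Nat.mul_le_mul_right _ ((card_filter_le _ _).trans ?_)
      rw [Nat.card_Ico]; omega
  have sub : S.filter P ⊆ U2 ∪ U1 := by
    intro n hn
    simp only [hS, mem_filter, mem_range] at hn
    obtain ⟨⟨hnX, hn0⟩, d, t, hd, ht, hdt, hn1, hn2⟩ := hn
    obtain ⟨j, hj⟩ := Nat.exists_eq_add_of_le (hm (Nat.le_add_right n d))
    obtain ⟨i, hi⟩ := Nat.exists_eq_add_of_le (hm (Nat.le_add_right (n + d) t))
    have hjd : j ≤ d := by have := lip h1 n d; omega
    have hit : i ≤ t := by have := lip h1 (n + d) t; omega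
    have hA : p ^ 3 ∣ 2 * n * d + d ^ 2 + j := by
      have e : (n + d) ^ 2 + g (n + d) = (n ^ 2 + g n) + (2 * n * d + d ^ 2 + j) := by
        rw [hj]; ring
      rw [e] at hn1
      exact (Nat.dvd_add_right hn0).1 hn1
    have hB : p ^ 3 ∣ 2 * n * (d + t) + (d + t) ^ 2 + (j + i) := by
      have e : (n + d + t) ^ 2 + g (n + d + t) =
          (n ^ 2 + g n) + (2 * n * (d + t) + (d + t) ^ 2 + (j + i)) := by
        rw [hi, hj]; ring
      rw [e] at hn2
      exact (Nat.dvd_add_right hn0).1 hn2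
    rw [mem_union]
    by_cases hpd : p ∣ d
    · left
      obtain ⟨a, rfl⟩ := hpd
      have hpj : p ∣ j := by
        have h3 : p ∣ 2 * n * (p * a) + (p * a) ^ 2 + j :=
          (dvd_pow_self p (by norm_num)).trans hA
        exact (Nat.dvd_add_right ⟨2 * n * a + p * a ^ 2, by ring⟩).1 h3
      obtain ⟨b, rfl⟩ := hpj
      have ha0 : 0 < a := Nat.pos_of_mul_pos_left hd
      have haw : a < w := Nat.lt_of_mul_lt_mul_left (a := p) (by omega)
      have hba : b ≤ a := Nat.le_of_mul_le_mul_left hjd hp.pos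
      simp only [hU2, hL, mem_biUnion, mem_Ico, mem_range, mem_filter]
      exact ⟨a, ⟨ha0, haw⟩, b, by omega, hnX, hA⟩
    · right
      obtain ⟨e, he0, he1, he2⟩ := exists_e hd ht hjd hit hdt hA hB
      have he3 : e ≤ w ^ 3 := by
        rw [mul_pow] at he1
        exact Nat.le_of_mul_le_mul_left he1 (pow_pos hp.pos 3)
      simp only [hU1, hL, hJ, mem_biUnion, mem_Ico, mem_Icc, mem_range, mem_filter]
      exact ⟨d, ⟨⟨hd, by omega⟩, hpd⟩, e, ⟨he0, he3⟩, j, ⟨by omega, t, i, hit, he2⟩, hnX, hA⟩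
  have c4 := Finset.card_filter_add_card_filter_not (s := S) P
  have c5 := (card_le_card sub).trans (card_union_le _ _)
  omega

/-- Large moduli: the values are distinct. -/
lemma count_large {g : ℕ → ℕ} (hm : Monotone g) (hg : ∀ n, g n ≤ n) (X : ℕ) {q : ℕ}
    (hq : 0 < q) : #{n ∈ Ico 1 X | q ∣ n ^ 2 + g n} ≤ 2 * X ^ 2 / q := by
  have : 2 * X ^ 2 / q = #(Icc 1 (2 * X ^ 2 / q)) := by simp
  rw [this]
  have key : ∀ a b, a < b → q ∣ a ^ 2 + g a → q ∣ b ^ 2 + g b →
      (a ^ 2 + g a) / q = (b ^ 2 + g b) / q → False := by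
    intro a b hab ha hb h
    have e1 := Nat.div_mul_cancel ha
    have e2 := Nat.div_mul_cancel hb
    rw [h] at e1
    have := hm hab.le
    have : a ^ 2 < b ^ 2 := Nat.pow_lt_pow_left hab (by norm_num)
    omega
  refine Finset.card_le_card_of_injOn (fun n => (n ^ 2 + g n) / q) ?_ ?_
  · intro n hn
    simp only [coe_filter, mem_Ico, Set.mem_ofPred_eq] at hn
    simp only [coe_Icc, Set.mem_Icc]
    have h0 : 0 < n ^ 2 := pow_pos (by omega) 2
    refine ⟨Nat.div_pos (Nat.le_of_dvd (by omega) hn.2) hq, Nat.div_le_div_right ?_⟩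
    have h1 : n ^ 2 ≤ X ^ 2 := Nat.pow_le_pow_left hn.1.2.le 2
    have h2 : n ≤ n ^ 2 := Nat.le_self_pow (by norm_num) n
    have := hg n
    omega
  · intro a ha b hb hab
    simp only [coe_filter, mem_Ico, Set.mem_ofPred_eq] at ha hb
    by_contra hne
    rcases lt_or_gt_of_ne hne with h1 | h1
    · exact key a b h1 ha.2 hb.2 hab
    · exact key b a h1 hb.2 ha.2 hab.symm

end Pool.Agent.MP_c6d393_nt
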