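import Pool.Agent.MP_c6d393_nt.Main

namespace Pool.Agent.MP_c6d393_nt.KeptCubeFree

/-- For every modulus `W`, a positive proportion of the `n` have `n ^ 2 + π n` cube-free and
coprime to `W`. -/
theorem result (W : ℕ) (hW : 0 < W) : ∃ X₀ : ℕ, ∀ X : ℕ, X₀ ≤ X →
    (X : ℝ) / (24 * W) ≤ (Set.ncard {n : ℕ | n < X ∧
      Nat.Coprime (n ^ 2 + Nat.primeCounting n) W ∧
      ∀ p : ℕ, p.Prime → ¬ p ^ 3 ∣ n ^ 2 + Nat.primeCounting n} : ℝ) := by
  have h1 : ∀ n, Nat.primeCounting (n + 1) ≤ Nat.primeCounting n + 1 := by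
    intro n
    unfold Nat.primeCounting Nat.primeCounting'
    rw [Nat.count_succ]
    split_ifs <;> omega
  have hg : ∀ n, Nat.primeCounting n ≤ n := by
    intro n
    simpa using Pool.Agent.MP_c6d393_nt.lip h1 0 n
  obtain ⟨X₀, h⟩ := Pool.Agent.MP_c6d393_nt.main Nat.monotone_primeCounting h1 hg
    (fun _ hε => Pool.Agent.MP_c6d393_nt.pi_small hε) (W := 6 * W) (by omega) (Dvd.intro _ rfl)
  refine ⟨X₀, fun X hX => ?_⟩
  have e : (X : ℝ) / (24 * W) = X / (4 * (6 * W : ℕ)) := by push_cast; ring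
  rw [e]
  refine (h X hX).trans ?_
  rw [← Set.ncard_coe_finset]
  refine Nat.cast_le.2 (Set.ncard_le_ncard ?_
    ((Set.finite_lt_nat X).subset fun n hn => hn.1))
  intro n hn
  simp only [Finset.coe_filter, Finset.mem_range, Set.mem_ofPred_eq] at hn ⊢
  refine ⟨hn.1, Nat.Coprime.coprime_mul_left_right hn.2.1, fun p hp hd => ?_⟩
  have h0 : 0 < n ^ 2 + Nat.primeCounting n := by
    rcases Nat.eq_zero_or_pos (n ^ 2 + Nat.primeCounting n) with h2 | h2
    · have h3 := hn.2.1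
      rw [h2, Nat.coprime_zero_left] at h3
      omega
    · exact h2
  have h4 := Nat.le_of_dvd h0 ((dvd_pow_self p (by norm_num)).trans hd)
  exact hn.2.2 p (by omega) hp hd

end Pool.Agent.MP_c6d393_nt.KeptCubeFree
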