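import Pool.Agent.MP_c6d393_nt.Sums

/-! Cube-free values of `n ^ 2 + g n` coprime to a given modulus. -/

namespace Pool.Agent.MP_c6d393_nt

open Finset Filter

lemma exists_res {W : ℕ} (hW : 0 < W) (k : ℕ) :
    ∃ r, r < W ∧ ∀ n, n % W = r → Nat.Coprime (n ^ 2 + k) W := by
  classical
  set s := ∏ p ∈ W.primeFactors.filter (fun p => ¬ p ∣ k), p with hs
  refine ⟨s % W, Nat.mod_lt _ hW, fun n hn => ?_⟩
  refine Nat.coprime_of_dvd fun p hp h1 h2 => ?_
  have hns : p ∣ n ↔ p ∣ s := by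
    rw [← Nat.dvd_mod_iff h2, hn, Nat.dvd_mod_iff h2]
  by_cases hk : p ∣ k
  · have h3 : p ∣ s := hns.1 (hp.dvd_of_dvd_pow ((Nat.dvd_add_left hk).1 h1))
    obtain ⟨q, hq, hpq⟩ := (Prime.dvd_finsetProd_iff hp.prime _).1 h3
    rw [mem_filter] at hq
    rw [(Nat.prime_dvd_prime_iff_eq hp (Nat.prime_of_mem_primeFactors hq.1)).1 hpq] at hk
    exact hq.2 hk
  · have h3 : p ∣ s := dvd_prod_of_mem _
      (mem_filter.2 ⟨Nat.mem_primeFactors.2 ⟨hp, h2, hW.ne'⟩, hk⟩)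
    exact hk ((Nat.dvd_add_right (dvd_pow (hns.2 h3) (by norm_num))).1 h1)

lemma card_jumps {h : ℕ → ℕ} (hm : Monotone h) (M : ℕ) :
    #{m ∈ range M | h m ≠ h (m + 1)} ≤ h M := by
  induction M with
  | zero => simp
  | succ M ih =>
    rw [range_add_one, filter_insert]
    have := hm (Nat.le_succ M)
    split_ifs with hc
    · have := card_insert_le M {m ∈ range M | h m ≠ h (m + 1)}
      simp only [Nat.succ_eq_add_one] at *
      omega
    · simp only [Nat.succ_eq_add_one] at *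
      omega

lemma card_class {g : ℕ → ℕ} (hm : Monotone g) {W : ℕ} (hW : 0 < W) (r : ℕ → ℕ)
    (hr : ∀ k, r k < W) (X : ℕ) : X / W ≤ #{n ∈ range X | n % W = r (g n)} + g X := by
  have hh : Monotone fun m => g (W * m) := fun a b hab => hm (Nat.mul_le_mul_left _ hab)
  have h1 := card_jumps hh (X / W)
  have h2 : g (W * (X / W)) ≤ g X := hm (Nat.mul_div_le _ _)
  have h3 := Finset.card_filter_add_card_filter_not (s := range (X / W))
    (fun m => g (W * m) ≠ g (W * (m + 1)))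
  rw [card_range] at h3
  have h4 : #{m ∈ range (X / W) | ¬ g (W * m) ≠ g (W * (m + 1))} ≤
      #{n ∈ range X | n % W = r (g n)} := by
    refine Finset.card_le_card_of_injOn (fun m => W * m + r (g (W * m))) ?_ ?_
    · intro m hm'
      simp only [coe_filter, mem_range, Set.mem_ofPred_eq, not_not] at hm' ⊢
      have a1 := hr (g (W * m))
      have a2 : W * (m + 1) ≤ W * (X / W) := Nat.mul_le_mul_left _ hm'.1
      have a3 := Nat.mul_div_le X W
      have a4 : W * (m + 1) = W * m + W := by ring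
      have a5 := hm (show W * m ≤ W * m + r (g (W * m)) by omega)
      have a6 := hm (show W * m + r (g (W * m)) ≤ W * (m + 1) by omega)
      have a7 : g (W * m + r (g (W * m))) = g (W * m) := by omega
      refine ⟨by omega, ?_⟩
      rw [a7, Nat.mul_add_mod, Nat.mod_eq_of_lt a1]
    · intro a _ b _ hab
      have := congrArg (· / W) hab
      simp only [Nat.mul_add_div hW, Nat.div_eq_of_lt (hr _)] at this
      omega
  omega

lemma pi_small {ε : ℝ} (hε : 0 < ε) :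
    ∃ N : ℕ, ∀ n, N ≤ n → (Nat.primeCounting n : ℝ) ≤ ε * n := by
  have h1 := Chebyshev.eventually_primeCounting_le (ε := 1) one_pos
  have h2 : ∀ᶠ x : ℝ in atTop, (Real.log 4 + 1) / ε ≤ Real.log x :=
    Real.tendsto_log_atTop.eventually_ge_atTop _
  obtain ⟨N, hN⟩ := eventually_atTop.1
    (tendsto_natCast_atTop_atTop.eventually (h1.and h2))
  refine ⟨N, fun n hn => ?_⟩
  obtain ⟨a, b⟩ := hN n hn
  rw [Nat.floor_natCast] at a
  have c : 0 < Real.log 4 + 1 := by positivity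
  have d : 0 < Real.log (n : ℝ) := (div_pos c hε).trans_le b
  rw [div_le_iff₀ hε] at b
  refine a.trans ?_
  rw [div_le_iff₀ d]
  have : (0 : ℝ) ≤ n := by positivity
  nlinarith

theorem main {g : ℕ → ℕ} (hm : Monotone g) (h1 : ∀ n, g (n + 1) ≤ g n + 1) (hg : ∀ n, g n ≤ n)
    (ho : ∀ ε : ℝ, 0 < ε → ∃ N : ℕ, ∀ n, N ≤ n → (g n : ℝ) ≤ ε * n) {W : ℕ} (hW : 0 < W)
    (h6 : 6 ∣ W) : ∃ X₀ : ℕ, ∀ X, X₀ ≤ X → (X : ℝ) / (4 * W) ≤
      #{n ∈ range X | Nat.Coprime (n ^ 2 + g n) W ∧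
        ∀ p ∈ range (n ^ 2 + g n + 1), p.Prime → ¬ p ^ 3 ∣ n ^ 2 + g n} := by
  classical
  choose r hr hrc using exists_res hW
  have W0 : (0 : ℝ) < W := by exact_mod_cast hW
  set δ : ℝ := 1 / (20 * W) with hδ
  have δ0 : 0 < δ := by positivity
  obtain ⟨z, hz⟩ := sum_low hm h1 δ0
  set V := 120 * W with hV
  set K := 40 * W with hK
  have V0 : (0 : ℝ) < V := by rw [hV]; positivity
  have K0 : (0 : ℝ) < K := by rw [hK]; positivity
  obtain ⟨N1, hN1⟩ := pi_small (ε := δ / (20 * V ^ 7 * K ^ 2)) (by positivity)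
  obtain ⟨N2, hN2⟩ := ho (δ / (2 * (2 * z + 1))) (by positivity)
  obtain ⟨N3, hN3⟩ := exists_nat_ge ((2 * z + 2) * 2 / δ)
  refine ⟨N1 ^ 2 + N2 + N3 + V ^ 9 + 1, fun X hX => ?_⟩
  set Y := K * (X.sqrt + 1) with hY
  have X1 : 1 ≤ X := by omega
  have s1 : X < (X.sqrt + 1) ^ 2 := Nat.lt_succ_sqrt' X
  have s2 : X.sqrt ^ 2 ≤ X := Nat.sqrt_le' X
  have s3 : (X.sqrt + 1) ^ 2 ≤ 4 * X := by
    have : 1 ≤ X.sqrt := Nat.sqrt_pos.2 X1
    nlinarith
  have s4 : N1 ≤ Y := by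
    have a : N1 ≤ X.sqrt := Nat.le_sqrt'.2 (by omega)
    exact (a.trans (Nat.le_succ _)).trans (Nat.le_mul_of_pos_left _ (by omega))
  have Y0 : 0 < Y := Nat.mul_pos (by omega) (by omega)
  have y0 : Y ^ 2 = K ^ 2 * (X.sqrt + 1) ^ 2 := mul_pow _ _ _
  have y1 : (K : ℝ) ^ 2 * X ≤ (Y : ℝ) ^ 2 := by
    have : K ^ 2 * X ≤ Y ^ 2 := by rw [y0]; exact Nat.mul_le_mul_left _ s1.le
    exact_mod_cast this
  have y2 : (Y : ℝ) ^ 2 ≤ K ^ 2 * (4 * X) := by
    have : Y ^ 2 ≤ K ^ 2 * (4 * X) := by rw [y0]; exact Nat.mul_le_mul_left _ s3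
    exact_mod_cast this
  have XR : (1 : ℝ) ≤ X := by exact_mod_cast X1
  set P := {p ∈ range (2 * X ^ 2 + 1) | p.Prime ∧ ¬ p ∣ W} with hP
  have hP4 : ∀ p ∈ P, p.Prime ∧ ¬ p ∣ W ∧ 4 < p := by
    intro p hp
    simp only [hP, mem_filter] at hp
    refine ⟨hp.2.1, hp.2.2, ?_⟩
    by_contra hc
    have h2 := hp.2.1.two_le
    have h3 : p ≤ 4 := by omega
    interval_cases p
    · exact hp.2.2 ((by norm_num : 2 ∣ 6).trans h6)
    · exact hp.2.2 ((by norm_num : 3 ∣ 6).trans h6)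
    · exact absurd hp.2.1 (by norm_num)
  set P1 := {p ∈ P | p ≤ z} with hP1
  set P2 := {p ∈ P | z < p ∧ p ^ 3 ≤ X} with hP2
  set P3 := {p ∈ P | X < p ^ 3 ∧ p ≤ Y} with hP3
  set P4 := {p ∈ P | Y < p} with hP4'
  set B1 : ℕ → Finset ℕ := fun p => {n ∈ range X | n % W = r (g n) ∧ p ^ 3 ∣ n ^ 2 + g n}
    with hB1
  set B2 : ℕ → Finset ℕ := fun p => {n ∈ range X | p ^ 3 ∣ n ^ 2 + g n} with hB2
  set B4 : ℕ → Finset ℕ := fun p => {n ∈ Ico 1 X | p ^ 3 ∣ n ^ 2 + g n} with hB4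
  set G := {n ∈ range X | Nat.Coprime (n ^ 2 + g n) W ∧
    ∀ p ∈ range (n ^ 2 + g n + 1), p.Prime → ¬ p ^ 3 ∣ n ^ 2 + g n} with hG
  have sub : {n ∈ range X | n % W = r (g n)} ⊆
      insert 0 (G ∪ (P1.biUnion B1 ∪ (P2.biUnion B2 ∪ (P3.biUnion B2 ∪ P4.biUnion B4)))) := by
    intro n hn
    rw [mem_filter, mem_range] at hn
    have hc := hrc _ n hn.2
    rw [mem_insert, mem_union]
    by_cases h0 : n = 0
    · exact Or.inl h0
    by_cases hn1 : n ∈ G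
    · exact Or.inr (Or.inl hn1)
    refine Or.inr (Or.inr ?_)
    simp only [hG, mem_filter, mem_range, hn.1, true_and, not_and, not_forall, not_not] at hn1
    obtain ⟨p, hpn, hp, hd⟩ := hn1 hc
    have hpP : p ∈ P := by
      simp only [hP, mem_filter, mem_range]
      have a1 : n ^ 2 ≤ X ^ 2 := Nat.pow_le_pow_left hn.1.le 2
      have a2 : n ≤ n ^ 2 := Nat.le_self_pow (by norm_num) n
      have a3 := hg n
      refine ⟨by omega, hp, fun hpW => ?_⟩
      exact hp.one_lt.ne' (Nat.eq_one_of_dvd_coprimes hc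
        ((dvd_pow_self p (by norm_num)).trans hd) hpW)
    simp only [mem_union, mem_biUnion, hP1, hP2, hP3, hP4', hB1, hB2, hB4, mem_filter, mem_range,
      mem_Ico]
    by_cases c1 : p ≤ z
    · exact Or.inl ⟨p, ⟨hpP, c1⟩, hn.1, hn.2, hd⟩
    by_cases c2 : p ^ 3 ≤ X
    · exact Or.inr (Or.inl ⟨p, ⟨hpP, by omega, c2⟩, hn.1, hd⟩)
    by_cases c3 : p ≤ Y
    · exact Or.inr (Or.inr (Or.inl ⟨p, ⟨hpP, by omega, c3⟩, hn.1, hd⟩))
    · exact Or.inr (Or.inr (Or.inr ⟨p, ⟨hpP, by omega⟩, ⟨by omega, hn.1⟩, hd⟩))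
  have cnt : X / W ≤ #G + ∑ p ∈ P1, #(B1 p) + ∑ p ∈ P2, #(B2 p) + ∑ p ∈ P3, #(B2 p) +
      ∑ p ∈ P4, #(B4 p) + 1 + g X := by
    have a0 := card_class hm hW r hr X
    have a1 := (card_le_card sub).trans (card_insert_le _ _)
    have a2 := card_union_le G
      (P1.biUnion B1 ∪ (P2.biUnion B2 ∪ (P3.biUnion B2 ∪ P4.biUnion B4)))
    have a3 := card_union_le (P1.biUnion B1)
      (P2.biUnion B2 ∪ (P3.biUnion B2 ∪ P4.biUnion B4))
    have a4 := card_union_le (P2.biUnion B2) (P3.biUnion B2 ∪ P4.biUnion B4)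
    have a5 := card_union_le (P3.biUnion B2) (P4.biUnion B4)
    have a6 := card_biUnion_le (s := P1) (t := B1)
    have a7 := card_biUnion_le (s := P2) (t := B2)
    have a8 := card_biUnion_le (s := P3) (t := B2)
    have a9 := card_biUnion_le (s := P4) (t := B4)
    omega
  have cnt' : ((X / W : ℕ) : ℝ) ≤ #G + ∑ p ∈ P1, (#(B1 p) : ℝ) + ∑ p ∈ P2, (#(B2 p) : ℝ) +
      ∑ p ∈ P3, (#(B2 p) : ℝ) + ∑ p ∈ P4, (#(B4 p) : ℝ) + 1 + g X := by exact_mod_cast cnt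
  have e0 : (X : ℝ) / W ≤ (X / W : ℕ) + 1 := by
    rw [div_le_iff₀ W0]
    have : X ≤ (X / W + 1) * W := by
      have := Nat.lt_div_mul_add hW (a := X)
      rw [add_mul]; omega
    exact_mod_cast this
  have e1 := sum_small hm r hW X z P1 fun p hp => by
    rw [hP1, mem_filter] at hp
    exact ⟨(hP4 p hp.1).1, (hP4 p hp.1).2.1, (hP4 p hp.1).2.2, hp.2⟩
  have e2 := hz X P2 fun p hp => by
    rw [hP2, mem_filter] at hp
    have := (hP4 p hp.1).2.2
    exact ⟨(hP4 p hp.1).1, by omega, hp.2.1, hp.2.2⟩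
  have e3 := sum_mid hm h1 (X := X) (V := V) (Y := Y) (by omega) (by omega) P3 fun p hp => by
    rw [hP3, mem_filter] at hp
    have := (hP4 p hp.1).2.2
    exact ⟨(hP4 p hp.1).1, by omega, hp.2.1, hp.2.2⟩
  have e4 := sum_large hm hg X Y0 P4 fun p hp => by
    rw [hP4', mem_filter] at hp
    exact hp.2
  have f1 : 6 * (X : ℝ) / V = δ * X := by rw [hV, hδ]; push_cast; field_simp; ring
  have f2 : 5 * (V : ℝ) ^ 7 * Y * Nat.primeCounting Y ≤ δ * X := by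
    have a1 := hN1 Y s4
    have a2 : 5 * (V : ℝ) ^ 7 * Y * Nat.primeCounting Y ≤
        5 * (V : ℝ) ^ 7 * Y * (δ / (20 * V ^ 7 * K ^ 2) * Y) :=
      mul_le_mul_of_nonneg_left a1 (by positivity)
    have a3 : 5 * (V : ℝ) ^ 7 * Y * (δ / (20 * V ^ 7 * K ^ 2) * Y) =
        δ / (4 * K ^ 2) * Y ^ 2 := by field_simp; ring
    have a4 : δ / (4 * K ^ 2) * (Y : ℝ) ^ 2 ≤ δ / (4 * K ^ 2) * (K ^ 2 * (4 * X)) :=
      mul_le_mul_of_nonneg_left y2 (by positivity)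
    have a5 : δ / (4 * K ^ 2) * ((K : ℝ) ^ 2 * (4 * X)) = δ * X := by field_simp
    linarith
  have f3 : 2 * (X : ℝ) ^ 2 / Y ^ 2 ≤ δ * X := by
    refine (div_le_div_of_nonneg_left (by positivity) (by positivity) y1).trans ?_
    have W1 : (1 : ℝ) ≤ W := by exact_mod_cast hW
    have a : 2 * (X : ℝ) ^ 2 / (K ^ 2 * X) = δ * X * (1 / (40 * W)) := by
      rw [hK, hδ]; push_cast; field_simp; ring
    rw [a]
    exact mul_le_of_le_one_right (by positivity) ((div_le_one (by positivity)).2 (by linarith))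
  have f4 : (2 * z + 1) * (g X : ℝ) ≤ δ * X / 2 := by
    have a1 := mul_le_mul_of_nonneg_left (hN2 X (by omega))
      (show (0 : ℝ) ≤ 2 * z + 1 by positivity)
    have a2 : (2 * z + 1) * (δ / (2 * (2 * z + 1)) * (X : ℝ)) = δ * X / 2 := by field_simp
    linarith
  have f5 : (2 * z + 2 : ℝ) ≤ δ * X / 2 := by
    have a1 : (N3 : ℝ) ≤ X := by exact_mod_cast (show N3 ≤ X by omega)
    have a2 := hN3.trans a1
    rw [div_le_iff₀ δ0] at a2
    linarith
  have f6 : (X : ℝ) / W = 20 * (δ * X) := by rw [hδ]; field_simp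
  have f7 : (X : ℝ) / (2 * W) = 10 * (δ * X) := by rw [hδ]; field_simp; ring
  have f8 : (X : ℝ) / (4 * W) = 5 * (δ * X) := by rw [hδ]; field_simp; ring
  simp only [hB1, hB2, hB4] at cnt'
  have f9 : (z : ℝ) * (2 * g X + 2) = (2 * z + 1) * (g X : ℝ) - g X + 2 * z := by ring
  linarith

end Pool.Agent.MP_c6d393_nt
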