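import Pool.Agent.MP_c6d393_nt.Count

/-! Summing the counts over the primes of four ranges. -/

namespace Pool.Agent.MP_c6d393_nt

open Finset

lemma sum_inv_sq (P : Finset ℕ) {k : ℕ} (hk : k ≠ 0) (h : ∀ p ∈ P, k < p) :
    ∑ p ∈ P, ((p : ℝ) ^ 2)⁻¹ ≤ (k : ℝ)⁻¹ := by
  have h1 : P ⊆ Ioc k (k + P.sup id) := by
    intro p hp
    have : p ≤ P.sup id := Finset.le_sup (f := id) hp
    have := h p hp
    rw [mem_Ioc]; omega
  have h2 := sum_Ioc_inv_sq_le_sub (α := ℝ) hk (Nat.le_add_right k (P.sup id))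
  have h3 : (0 : ℝ) ≤ ((k + P.sup id : ℕ) : ℝ)⁻¹ := by positivity
  exact (sum_le_sum_of_subset_of_nonneg h1 fun _ _ _ => by positivity).trans (by linarith)

lemma sum_small {g : ℕ → ℕ} (hm : Monotone g) (r : ℕ → ℕ) {W : ℕ} (hW0 : 0 < W) (X z : ℕ)
    (P : Finset ℕ) (hP : ∀ p ∈ P, p.Prime ∧ ¬ p ∣ W ∧ 4 < p ∧ p ≤ z) :
    ∑ p ∈ P, (#{n ∈ range X | n % W = r (g n) ∧ p ^ 3 ∣ n ^ 2 + g n} : ℝ) ≤
      X / (2 * W) + z * (2 * g X + 2) := by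
  have hW : (0 : ℝ) < W := by exact_mod_cast hW0
  have h1 : ∀ p ∈ P, (#{n ∈ range X | n % W = r (g n) ∧ p ^ 3 ∣ n ^ 2 + g n} : ℝ) ≤
      2 * X / W * ((p : ℝ) ^ 2)⁻¹ + (2 * g X + 2) := by
    intro p hp
    obtain ⟨hp1, hp2, -, -⟩ := hP p hp
    have h := count_small hm r X hp1 hp2 hW0
    have h2 : ((X / (W * p ^ 2) : ℕ) : ℝ) ≤ X / (W * p ^ 2 : ℕ) := Nat.cast_div_le
    have h3 : (#{n ∈ range X | n % W = r (g n) ∧ p ^ 3 ∣ n ^ 2 + g n} : ℝ) ≤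
        2 * ((X / (W * p ^ 2) : ℕ) + g X + 1) := by exact_mod_cast h
    have h4 : (X : ℝ) / (W * p ^ 2 : ℕ) = X / W * ((p : ℝ) ^ 2)⁻¹ := by
      push_cast; rw [← div_div, div_eq_mul_inv]
    have h5 : 2 * (X : ℝ) / W * ((p : ℝ) ^ 2)⁻¹ = 2 * (X / W * ((p : ℝ) ^ 2)⁻¹) := by ring
    linarith
  refine (sum_le_sum h1).trans ?_
  rw [sum_add_distrib, ← mul_sum, sum_const, nsmul_eq_mul]
  have h2 := sum_inv_sq P (k := 4) (by norm_num) fun p hp => (hP p hp).2.2.1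
  have h3 : #P ≤ z := by
    have : P ⊆ Icc 1 z := fun p hp => by
      have := hP p hp
      rw [mem_Icc]; omega
    simpa using card_le_card this
  have h4 : (#P : ℝ) ≤ z := by exact_mod_cast h3
  have h5 : 2 * (X : ℝ) / W * ∑ p ∈ P, ((p : ℝ) ^ 2)⁻¹ ≤ 2 * X / W * ((4 : ℕ) : ℝ)⁻¹ :=
    mul_le_mul_of_nonneg_left h2 (by positivity)
  have h6 : 2 * (X : ℝ) / W * ((4 : ℕ) : ℝ)⁻¹ = X / (2 * W) := by
    push_cast; field_simp; ring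
  have h7 : (#P : ℝ) * (2 * g X + 2) ≤ z * (2 * g X + 2) :=
    mul_le_mul_of_nonneg_right h4 (by positivity)
  linarith

lemma div_add_one_le {X m : ℕ} (hm : 0 < m) (h : m ≤ X) :
    ((X / m + 1 : ℕ) : ℝ) ≤ 2 * X / m := by
  have h1 : ((X / m : ℕ) : ℝ) ≤ X / m := Nat.cast_div_le
  have hm' : (0 : ℝ) < m := by exact_mod_cast hm
  have h2 : (1 : ℝ) ≤ X / m := (one_le_div hm').2 (by exact_mod_cast h)
  have h3 : 2 * (X : ℝ) / m = X / m + X / m := by ring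
  push_cast; linarith

lemma low_one {g : ℕ → ℕ} (hm : Monotone g) (h1 : ∀ n, g (n + 1) ≤ g n + 1) {p X : ℕ}
    (hp : p.Prime) (hp2 : p ≠ 2) (hX : p ^ 3 ≤ X) :
    (#{n ∈ range X | p ^ 3 ∣ n ^ 2 + g n} : ℝ) ≤ 20 * X * ((p : ℝ) ^ (9 / 8 : ℝ))⁻¹ := by
  set w := Nat.nthRoot 8 p with hw
  have hp1 := hp.one_lt
  have w1 : w ^ 8 ≤ p := Nat.pow_nthRoot_le_iff.2 (Or.inl (by norm_num))
  have w2 : p < (w + 1) ^ 8 := Nat.lt_pow_nthRoot_add_one (by norm_num) p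
  have w0 : 0 < w := by
    rcases Nat.eq_zero_or_pos w with h | h
    · rw [h] at w2; omega
    · exact h
  have wp : w ≤ p := (Nat.le_self_pow (by norm_num) w).trans w1
  have h := count_mid hm h1 X hp hp2 w0 wp
  have q2 : p ^ 2 ≤ X := (Nat.pow_le_pow_right hp.pos (by norm_num)).trans hX
  have q1 : p * w ≤ X := (Nat.mul_le_mul_left p wp).trans (by rw [← pow_two]; exact q2)
  have a1 := div_add_one_le (Nat.mul_pos hp.pos w0) q1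
  have a2 := div_add_one_le (pow_pos hp.pos 2) q2
  have a3 := div_add_one_le (pow_pos hp.pos 3) hX
  have h' : (#{n ∈ range X | p ^ 3 ∣ n ^ 2 + g n} : ℝ) ≤
      2 * ((X / (p * w) + 1 : ℕ) : ℝ) + w * w * ((X / p ^ 2 + 1 : ℕ) : ℝ) +
        p * w * (w ^ 3 * ((w ^ 3 + 1) * ((X / p ^ 3 + 1 : ℕ) : ℝ))) := by exact_mod_cast h
  have P0 : (0 : ℝ) < p := by exact_mod_cast hp.pos
  have W1 : (1 : ℝ) ≤ w := by exact_mod_cast w0
  have W8 : (w : ℝ) ^ 8 ≤ p := by exact_mod_cast w1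
  have X0 : (0 : ℝ) ≤ X := by positivity
  have W3 : (1 : ℝ) ≤ (w : ℝ) ^ 3 := one_le_pow₀ W1
  have b2 : (w : ℝ) * w * ((X / p ^ 2 + 1 : ℕ) : ℝ) ≤ 2 * (X / (p * w)) := by
    refine (mul_le_mul_of_nonneg_left a2 (by positivity)).trans ?_
    have e : (w : ℝ) * w * (2 * X / (p ^ 2 : ℕ)) = 2 * (X / (p * w)) * (w ^ 3 / p) := by
      push_cast; field_simp
    rw [e]
    refine mul_le_of_le_one_right (by positivity) ((div_le_one P0).2 ?_)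
    exact (pow_le_pow_right₀ W1 (by norm_num)).trans W8
  have b3 : (p : ℝ) * w * (w ^ 3 * ((w ^ 3 + 1) * ((X / p ^ 3 + 1 : ℕ) : ℝ))) ≤
      4 * (X / (p * w)) := by
    have c1 : ((w : ℝ) ^ 3 + 1) * ((X / p ^ 3 + 1 : ℕ) : ℝ) ≤
        (2 * w ^ 3) * (2 * X / (p ^ 3 : ℕ)) :=
      mul_le_mul (by linarith) a3 (by positivity) (by positivity)
    refine (mul_le_mul_of_nonneg_left (mul_le_mul_of_nonneg_left c1 (by positivity))
      (by positivity)).trans ?_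
    have e : (p : ℝ) * w * (w ^ 3 * ((2 * w ^ 3) * (2 * X / (p ^ 3 : ℕ)))) =
        4 * (X / (p * w)) * (w ^ 8 / p) := by
      push_cast; field_simp; ring
    rw [e]
    exact mul_le_of_le_one_right (by positivity) ((div_le_one P0).2 W8)
  have b1 : 2 * ((X / (p * w) + 1 : ℕ) : ℝ) ≤ 4 * (X / (p * w)) := by
    have e : 2 * (X : ℝ) / (p * w : ℕ) = 2 * (X / (p * w)) := by push_cast; ring
    rw [e] at a1; linarith
  have r1 : (p : ℝ) ^ (1 / 8 : ℝ) ≤ 2 * w := by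
    have c1 : (p : ℝ) ≤ (2 * w) ^ 8 := by
      have : p ≤ (2 * w) ^ 8 := w2.le.trans (Nat.pow_le_pow_left (by omega) 8)
      exact_mod_cast this
    have c2 : (p : ℝ) ^ (1 / 8 : ℝ) ≤ ((2 * w : ℝ) ^ 8) ^ (1 / 8 : ℝ) :=
      Real.rpow_le_rpow P0.le c1 (by norm_num)
    have c3 : ((2 * w : ℝ) ^ 8) ^ (1 / 8 : ℝ) = 2 * w := by
      rw [← Real.rpow_natCast, ← Real.rpow_mul (by positivity)]; norm_num
    rwa [c3] at c2
  have r2 : (p : ℝ) ^ (9 / 8 : ℝ) ≤ 2 * (p * w) := by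
    have e : (p : ℝ) ^ (9 / 8 : ℝ) = p * (p : ℝ) ^ (1 / 8 : ℝ) := by
      rw [show (9 / 8 : ℝ) = 1 + 1 / 8 by norm_num, Real.rpow_add P0, Real.rpow_one]
    rw [e]; nlinarith
  have r3 : (X : ℝ) / (p * w) ≤ 2 * X * ((p : ℝ) ^ (9 / 8 : ℝ))⁻¹ := by
    have hpos : (0 : ℝ) < (p : ℝ) ^ (9 / 8 : ℝ) := Real.rpow_pos_of_pos P0 _
    rw [← div_eq_mul_inv, div_le_div_iff₀ (by positivity) hpos]
    nlinarith
  linarith

lemma sum_low {g : ℕ → ℕ} (hm : Monotone g) (h1 : ∀ n, g (n + 1) ≤ g n + 1) {ε : ℝ}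
    (hε : 0 < ε) : ∃ z : ℕ, ∀ (X : ℕ) (P : Finset ℕ),
      (∀ p ∈ P, p.Prime ∧ p ≠ 2 ∧ z < p ∧ p ^ 3 ≤ X) →
      ∑ p ∈ P, (#{n ∈ range X | p ^ 3 ∣ n ^ 2 + g n} : ℝ) ≤ ε * X := by
  have hs : Summable fun n : ℕ => ((n : ℝ) ^ (9 / 8 : ℝ))⁻¹ :=
    Real.summable_nat_rpow_inv.2 (by norm_num)
  obtain ⟨s, hs⟩ := summable_iff_vanishing_norm.1 hs (ε / 20) (by positivity)
  refine ⟨s.sup id, fun X P hP => ?_⟩
  have hd : Disjoint P s := by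
    rw [Finset.disjoint_left]
    intro p hp hps
    have : p ≤ s.sup id := Finset.le_sup (f := id) hps
    have := (hP p hp).2.2.1
    omega
  have h2 := (le_abs_self _).trans (hs P hd).le
  refine (sum_le_sum fun p hp =>
    low_one hm h1 (hP p hp).1 (hP p hp).2.1 (hP p hp).2.2.2).trans ?_
  rw [← mul_sum]
  have : (0 : ℝ) ≤ X := by positivity
  nlinarith

/-- An integer up to `X` has at most two prime factors above the cube root of `X`. -/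
lemma sum_div_le (X : ℕ) (P : Finset ℕ) (hP : ∀ p ∈ P, p.Prime ∧ X < p ^ 3) :
    ∑ p ∈ P, X / p ≤ 2 * X := by
  have h1 : ∑ p ∈ P, X / p = ∑ n ∈ Ioc 0 X, #{p ∈ P | p ∣ n} := by
    simp only [← Nat.Ioc_filter_dvd_card_eq_div, card_filter]
    exact sum_comm
  rw [h1]
  refine (sum_le_card_nsmul _ _ 2 fun n hn => ?_).trans (by simp [mul_comm])
  rw [mem_Ioc] at hn
  refine card_le_two _ fun a ha b hb c hc hab hbc => ?_
  rw [mem_filter] at ha hb hc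
  obtain ⟨pa, xa⟩ := hP a ha.1
  obtain ⟨pb, -⟩ := hP b hb.1
  obtain ⟨pc, -⟩ := hP c hc.1
  have c1 : Nat.Coprime a b := (Nat.coprime_primes pa pb).2 (by omega)
  have c2 : Nat.Coprime (a * b) c := Nat.Coprime.mul_left
    ((Nat.coprime_primes pa pc).2 (by omega)) ((Nat.coprime_primes pb pc).2 (by omega))
  have d := Nat.le_of_dvd hn.1
    (c2.mul_dvd_of_dvd_of_dvd (c1.mul_dvd_of_dvd_of_dvd ha.2 hb.2) hc.2)
  have e : a * a * a ≤ a * b * c := Nat.mul_le_mul (Nat.mul_le_mul_left _ hab.le) (by omega)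
  have e2 : a ^ 3 = a * a * a := by ring
  omega

lemma mid_one {g : ℕ → ℕ} (hm : Monotone g) (h1 : ∀ n, g (n + 1) ≤ g n + 1) {p X V Y : ℕ}
    (hp : p.Prime) (hp2 : p ≠ 2) (hV : 0 < V) (hXV : V ^ 9 ≤ X) (hX : X < p ^ 3) (hY : p ≤ Y) :
    V * #{n ∈ range X | p ^ 3 ∣ n ^ 2 + g n} ≤ 3 * (X / p) + 5 * V ^ 8 * Y := by
  have v3 : V ^ 3 ≤ p := by
    have : (V ^ 3) ^ 3 < p ^ 3 := by rw [← pow_mul]; exact hXV.trans_lt hX
    exact (lt_of_pow_lt_pow_left₀ 3 (Nat.zero_le _) this).le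
  have v1 : V ≤ p := (Nat.le_self_pow (by norm_num) V).trans v3
  have h := count_mid hm h1 X hp hp2 hV v1
  rw [Nat.div_eq_of_lt hX] at h
  have a1 : V * (X / (p * V)) ≤ X / p := by
    rw [← Nat.div_div_eq_div_mul]; exact Nat.mul_div_le _ _
  have a2 : V ^ 3 * (X / p ^ 2) ≤ X / p := by
    rw [pow_two, ← Nat.div_div_eq_div_mul]
    exact (Nat.mul_le_mul_right _ v3).trans (Nat.mul_div_le _ _)
  have y1 : 1 ≤ Y := hp.pos.trans_le hY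
  have b1 : V ≤ V ^ 8 * Y := (Nat.le_self_pow (by norm_num) V).trans (Nat.le_mul_of_pos_right _ y1)
  have b2 : V ^ 3 ≤ V ^ 8 * Y :=
    (Nat.pow_le_pow_right hV (by norm_num)).trans (Nat.le_mul_of_pos_right _ y1)
  have b3 : V ^ 8 * p ≤ V ^ 8 * Y := Nat.mul_le_mul_left _ hY
  have b4 : V ^ 5 * p ≤ V ^ 8 * Y := Nat.mul_le_mul (Nat.pow_le_pow_right hV (by norm_num)) hY
  have e : V * (2 * (X / (p * V) + 1) + V * V * (X / p ^ 2 + 1) +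
      p * V * (V ^ 3 * ((V ^ 3 + 1) * (0 + 1)))) =
      2 * (V * (X / (p * V))) + 2 * V + V ^ 3 * (X / p ^ 2) + V ^ 3 + V ^ 8 * p + V ^ 5 * p := by
    ring
  have e2 : 5 * V ^ 8 * Y = 5 * (V ^ 8 * Y) := by ring
  have := Nat.mul_le_mul_left V h
  omega

lemma sum_mid {g : ℕ → ℕ} (hm : Monotone g) (h1 : ∀ n, g (n + 1) ≤ g n + 1) {X V Y : ℕ}
    (hV : 0 < V) (hXV : V ^ 9 ≤ X) (P : Finset ℕ)
    (hP : ∀ p ∈ P, p.Prime ∧ p ≠ 2 ∧ X < p ^ 3 ∧ p ≤ Y) :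
    ∑ p ∈ P, (#{n ∈ range X | p ^ 3 ∣ n ^ 2 + g n} : ℝ) ≤
      6 * X / V + 5 * V ^ 7 * Y * Nat.primeCounting Y := by
  have a1 : V * ∑ p ∈ P, #{n ∈ range X | p ^ 3 ∣ n ^ 2 + g n} ≤
      6 * X + 5 * V ^ 8 * Y * Nat.primeCounting Y := by
    rw [mul_sum]
    refine (sum_le_sum fun p hp => mid_one hm h1 (hP p hp).1 (hP p hp).2.1 hV hXV
      (hP p hp).2.2.1 (hP p hp).2.2.2).trans ?_
    rw [sum_add_distrib, ← mul_sum, sum_const, smul_eq_mul]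
    have b1 := sum_div_le X P fun p hp => ⟨(hP p hp).1, (hP p hp).2.2.1⟩
    have b2 : #P ≤ Nat.primeCounting Y := by
      rw [← Nat.primesLE_card_eq_primeCounting]
      exact card_le_card fun p hp => Nat.mem_primesLE.2 ⟨(hP p hp).2.2.2, (hP p hp).1⟩
    have b3 := Nat.mul_le_mul_right (5 * V ^ 8 * Y) b2
    rw [mul_comm (Nat.primeCounting Y)] at b3
    omega
  have V0 : (0 : ℝ) < V := by exact_mod_cast hV
  have a2 : (V : ℝ) * ∑ p ∈ P, (#{n ∈ range X | p ^ 3 ∣ n ^ 2 + g n} : ℝ) ≤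
      6 * X + 5 * V ^ 8 * Y * Nat.primeCounting Y := by exact_mod_cast a1
  have e : 6 * (X : ℝ) / V + 5 * V ^ 7 * Y * Nat.primeCounting Y =
      (6 * X + 5 * V ^ 8 * Y * Nat.primeCounting Y) / V := by field_simp
  rw [e, le_div_iff₀' V0]
  exact a2

lemma sum_large {g : ℕ → ℕ} (hm : Monotone g) (hg : ∀ n, g n ≤ n) (X : ℕ) {Y : ℕ} (hY : 0 < Y)
    (P : Finset ℕ) (hP : ∀ p ∈ P, Y < p) :
    ∑ p ∈ P, (#{n ∈ Ico 1 X | p ^ 3 ∣ n ^ 2 + g n} : ℝ) ≤ 2 * X ^ 2 / Y ^ 2 := by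
  have Y0 : (0 : ℝ) < Y := by exact_mod_cast hY
  have h1 : ∀ p ∈ P, (#{n ∈ Ico 1 X | p ^ 3 ∣ n ^ 2 + g n} : ℝ) ≤
      2 * X ^ 2 / Y * ((p : ℝ) ^ 2)⁻¹ := by
    intro p hp
    have hp0 : 0 < p := hY.trans (hP p hp)
    have P0 : (0 : ℝ) < p := by exact_mod_cast hp0
    have PY : (Y : ℝ) ≤ p := by exact_mod_cast (hP p hp).le
    have a1 : (#{n ∈ Ico 1 X | p ^ 3 ∣ n ^ 2 + g n} : ℝ) ≤ ((2 * X ^ 2 / p ^ 3 : ℕ) : ℝ) := by
      exact_mod_cast count_large hm hg X (pow_pos hp0 3)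
    refine a1.trans (Nat.cast_div_le.trans ?_)
    have e : ((2 * X ^ 2 : ℕ) : ℝ) / ((p ^ 3 : ℕ) : ℝ) = 2 * X ^ 2 / p * ((p : ℝ) ^ 2)⁻¹ := by
      push_cast; field_simp
    rw [e]
    exact mul_le_mul_of_nonneg_right
      (div_le_div_of_nonneg_left (by positivity) Y0 PY) (by positivity)
  refine (sum_le_sum h1).trans ?_
  rw [← mul_sum]
  refine (mul_le_mul_of_nonneg_left (sum_inv_sq P hY.ne' hP) (by positivity)).trans (le_of_eq ?_)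
  field_simp

end Pool.Agent.MP_c6d393_nt
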